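import Mathlib
import Pool.Agent.H65.CM.Mix
import Pool.Graph.R_seed8.Y1.TS.Split
import Pool.Graph.R_pool_sql_team_seeded_3997aac3.Q29.GS.Final

/-!
# ℓ-Galois special points and abelian varieties with one Frobenius element whose fields are Galois CM
fields with reduced odd group algebra

Let `K i` be finitely many CM fields with Weil numbers `π i` for `q = p ^ a`, of any slopes. We assume
(`IsMixedFamily`) that for the `i` in a set `R` (for instance for all `i`)

* `K i` is Galois over `ℚ` and the odd part of the rational group algebra of its Galois group (the
  elements `x` with `c x = - x`, `c` the complex conjugation) contains no `x ≠ 0` with `x ^ 2 = 0`
  (`OddReduced`). By the third part of the theorem this is so if the Galois group has an abelian subgroup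
  `B` such that all elements outside `B` have square `c` (`DicyclicType`): the abelian CM fields and the
  Galois CM fields with quaternion, dicyclic and generalized dicyclic groups;
* `π i` has no short relation (`NoShort`): for a nonempty set `S` of complex embeddings of `K i` which
  contains at most one embedding of each pair of conjugate embeddings, no positive power of
  `∏_{φ ∈ S} φ(π i) ^ 2` is equal to the same power of `q ^ |S|`;
* no two of these `K i` have a CM field in common (`RealIntersection`);

and that the other `π i` are simple in the sense of the library (`IsSimpleWeil`: not supersingular, and
with irreducible odd functions, or of degree `2 g` for an odd prime number `g`, all powers of `π i`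
generate `K i` and there is no Weil relation), have different fields (`IsDifferent`), and fields without
embeddings into the `K k`, `k ∈ R`, and without imaginary quadratic fields in common with them.

**The question.** Let `x` be a point of the moduli space over a number field, and let `A_x` be
isogenous to `B ^ (r + 1) × C`, where `C` is an **arbitrary** abelian variety, which may be zero. Let
`γ` be a Frobenius element at **one** place of good reduction, the residue field having `q` elements,
such that

* the characteristic polynomial of `γ` on the Tate module `V = V_ℓ (B)` is the product of the minimal
  polynomials of the `π i` (`IsPolarised`; together with the Weil pairing and the semisimplicity theorem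
  of Faltings),

* the eigenvalues of `γ` on the multilinear forms on `W = V_ℓ (C)` are unrelated to the fields `K i`
  (`FormsUnrelated`, `UnrelatedTo`): a function `n` on the complex embeddings of `K i` with `n (conj
  φ) = - n φ` which is invariant under all automorphisms of `ℂ` that fix a power of such an eigenvalue
  is zero. By the second part of the theorem the elements of Galois number fields which have no CM field
  in common with `K i` are unrelated to `K i`. It is no condition if `C = 0`.

Let `y` run through varieties through `x` over which the abelian variety is isogenous to a product
`B_y ^ (r + 1) × C_y` (if `C = 0` and `r = 0` these are **all** varieties through `x`). Then `V` and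
`W` are representations of the arithmetic fundamental group `G y` of `y`, and there is a
homomorphism `i y` from the Galois group `D y` of the residue field of `x` to `G y`. A Tate form of
degree `m` at `x` (on `y`) is a form in `2 m` variables on `V ^ (r + 1) × W` that is multiplied by
the `m`-th power of the cyclotomic character `χ` by a subgroup of finite index of `D y` (of `G y`).
By definition (`IsGaloisSpecial`) `x` is `ℓ`-Galois special with respect to these `y` if for no `y` all
Tate forms at `x` are Tate forms on `y` (`SameGroup`); as the algebraic monodromy groups are reductive
this means that the groups of `x` and `y` are different.

**The theorem** (`ReducesTo`): `x` is `ℓ`-Galois special if and only if, for each `y`, some endomorphism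
of `B` does not extend to `B_y` or the algebraic monodromy groups of `C` at `x` and of `C_y` are
different. The condition for `B` (`FormsExtend`) is formulated with bilinear forms instead of
endomorphisms.

If `C = 0` and `r = 0`, this answers Q1 for the point `x`: the endomorphisms extend on the Shimura
subvariety of PEL type through `x`, so that `x` is `ℓ`-Galois special if and only if this variety is
a point, that is, if `x` is a CM point. In general take for `y` the products of the variety of PEL
type of `B` with the point of `C`: so if `x` is `ℓ`-Galois special then `B` is CM, and then also the
point of `C` is `ℓ`-Galois special. Hence **Q1 for `x` follows from Q1 for `C`** (these arguments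
are not formalized).

The definitions and the passage from the Tate classes of degree two to the reduction statement are those
of the library results `SeparatedByClosures` and `TypicalFields` on this problem. There the fields have
degree two, four or twice a prime number, or the odd functions (orthogonal to a sign function) are
irreducible, or the slopes and the Galois groups are generic. New here: Galois CM fields with small,
possibly non-abelian, groups, of arbitrary degree and with many CM subfields, for instance the
dicyclic fields, under the finite condition `NoShort`.
-/

set_option autoImplicit false

namespace Pool.Agent.Results.MP_09799c_ag.ReducedGaloisPoints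

open NumberField Module IntermediateField Pool.Agent.Y1.TS Pool.Agent.Q29.GS Pool.Agent.Y1.CT
  Pool.Agent.H65.CM

/-- **A point with the isogeny factors `B` and `C` is `ℓ`-Galois special if and only if on no variety
through it the endomorphisms of `B` extend and the algebraic monodromy group of `C` is the one at the
point, for all `B` with one Frobenius element whose Weil numbers form a mixed family and all unrelated
`C`.** -/
theorem result :
    (∀ (p : ℕ) [Fact p.Prime] (a : ℕ), 0 < a → ∀ (I : Type) [Fintype I] (K : I → Type)
      [∀ i, Field (K i)] [∀ i, NumberField (K i)] [∀ i, IsCMField (K i)] (π : ∀ i, K i),
      (∀ i, ℚ⟮π i⟯ = ⊤) → (∀ i, π i * IsCMField.complexConj (K i) (π i) = (p : K i) ^ a) →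
      ∀ R : Set I, IsMixedFamily p a R K π → ReducesTo (p := p) a K π) ∧
    (∀ (K E : Type) [Field K] [NumberField K] [IsGalois ℚ K] [Field E] [NumberField E]
      [IsGalois ℚ E], RealIntersection K E → ∀ (ψ : E →+* ℂ) (y : E), UnrelatedTo K (ψ y)) ∧
    (∀ (K : Type) [Field K] [NumberField K], DicyclicType K → OddReduced K) := by
  refine ⟨?_, ?_, fun K _ _ h => OddReduced.of_dicyclic h⟩
  · intro p _ a ha I _ K _ _ _ π hg hw R hR
    exact reducesTo (split_of_angle hg hw (angle_of_mixed ha hw hR))
  · intro K E _ _ _ _ _ _ h ψ y
    obtain ⟨τ, h1, h2⟩ := exists_flip h
    exact unrelated_of_flip τ h1 h2 ψ y

end Pool.Agent.Results.MP_09799c_ag.ReducedGaloisPoints
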